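import Pool.Agent.Helper89.Vol4.Goals

/-! # MP_cd13d2_co, packet V47-P212 -/

set_option autoImplicit false

namespace Pool.Agent.Helper99.Vol4.PkP212

open MeasureTheory Set Pool.Agent.Helper86.Poly Pool.Agent.Helper89.Vol4

/-- Distances in coordinates. -/
lemma coord (u v : E 4) (h : ‖u - v‖ ≤ 1) :
    (u 0 - v 0) ^ 2 + (u 1 - v 1) ^ 2 + (u 2 - v 2) ^ 2 + (u 3 - v 3) ^ 2 ≤ 1 := by
  have h2 := EuclideanSpace.norm_sq_eq (u - v)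
  rw [Fin.sum_univ_four] at h2
  simp only [PiLp.sub_apply, Real.norm_eq_abs, sq_abs] at h2
  have h3 : ‖u - v‖ ^ 2 ≤ 1 := by
    have := norm_nonneg (u - v)
    nlinarith
  rw [h2] at h3
  exact h3

/-- `dt` for two vectors in the plane of the last two coordinates. -/
lemma dt_block (e f p q : E 4) (h0 : e 0 = 0) (h1 : e 1 = 0) (h2 : f 0 = 0) (h3 : f 1 = 0) :
    dt e f p q = (e 2 * f 3 - e 3 * f 2) * (p 0 * q 1 - p 1 * q 0) := by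
  simp only [dt, h0, h1, h2, h3]
  rw [Matrix.det_succ_row_zero]
  simp [Fin.sum_univ_succ, Matrix.det_fin_three, Matrix.submatrix, Fin.succAbove]
  ring

/-- One point and the ends of a segment. -/
lemma par {x0 x1 x2 x3 p0 p1 p2 p3 c2 c3 l : ℝ} (hl : l ^ 2 = c2 ^ 2 + c3 ^ 2)
    (ha : (x0 - p0) ^ 2 + (x1 - p1) ^ 2 + (x2 - p2) ^ 2 + (x3 - p3) ^ 2 ≤ 1)
    (hb : (x0 - p0) ^ 2 + (x1 - p1) ^ 2 + (x2 - (p2 + c2)) ^ 2 + (x3 - (p3 + c3)) ^ 2 ≤ 1) :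
    (x0 - p0) ^ 2 + (x1 - p1) ^ 2 ≤ 1 - l ^ 2 / 4 := by
  rw [hl]
  linarith [sq_nonneg (2 * (x2 - p2) - c2), sq_nonneg (2 * (x3 - p3) - c3)]

theorem thm (h : G_Q212) (hF : G_FRM4) : G_P212 := by
  intro y hy
  obtain ⟨L, ε, hε, hdt, he0, he1, hf0, hf1, hn1, hn0⟩ :=
    hF (y 1 - y 0) (y 4 - y 3) (y 6 - y 5)
  obtain ⟨x, hx⟩ : ∃ x : Fin 7 → E 4, ∀ k, x k = L (y k - y 0) := ⟨_, fun _ => rfl⟩
  have hsub : ∀ i j, x i - x j = L (y i - y j) := by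
    intro i j
    rw [hx, hx, ← map_sub]
    congr 1
    abel
  have hd : ∀ i j, ‖x i - x j‖ ≤ 1 := by
    intro i j
    rw [hsub, LinearIsometryEquiv.norm_map, ← dist_eq_norm]
    exact hy i j
  have hco : ∀ i j, (x i 0 - x j 0) ^ 2 + (x i 1 - x j 1) ^ 2 + (x i 2 - x j 2) ^ 2 +
      (x i 3 - x j 3) ^ 2 ≤ 1 := fun i j => coord (x i) (x j) (hd i j)
  have hx0 : ∀ m : Fin 4, x 0 m = 0 := by
    intro m
    rw [hx]
    simp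
  have g0 : x 4 0 = x 3 0 := by
    have h1 : (x 4 - x 3) 0 = 0 := by rw [hsub]; exact hf0
    rw [PiLp.sub_apply] at h1
    exact sub_eq_zero.1 h1
  have g1 : x 4 1 = x 3 1 := by
    have h1 : (x 4 - x 3) 1 = 0 := by rw [hsub]; exact hf1
    rw [PiLp.sub_apply] at h1
    exact sub_eq_zero.1 h1
  have g2 : x 6 1 = x 5 1 := by
    have h1 : (x 6 - x 5) 1 = 0 := by rw [hsub]; exact hn1
    rw [PiLp.sub_apply] at h1
    exact sub_eq_zero.1 h1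
  have g3 : x 5 0 ≤ x 6 0 := by
    have h1 : 0 ≤ (x 6 - x 5) 0 := by rw [hsub]; exact hn0
    rw [PiLp.sub_apply] at h1
    exact sub_nonneg.1 h1
  have k0 : x 1 0 = 0 := by rw [hx]; exact he0
  have k1 : x 1 1 = 0 := by rw [hx]; exact he1
  -- the determinants
  have hB : ∀ p q : E 4, ε * dt (y 1 - y 0) (y 4 - y 3) p q =
      (x 1 2 * (x 4 3 - x 3 3) - x 1 3 * (x 4 2 - x 3 2)) * (L p 0 * L q 1 - L p 1 * L q 0) := by
    intro p q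
    rw [← hdt, ← hx 1, ← hsub 4 3, dt_block _ _ _ _ k0 k1 (by rw [hsub]; exact hf0)
      (by rw [hsub]; exact hf1)]
    simp only [PiLp.sub_apply]
  have hP : ε * p212 y = (x 1 2 * (x 4 3 - x 3 3) - x 1 3 * (x 4 2 - x 3 2)) *
      ((x 2 0 * x 3 1 - x 2 1 * x 3 0) + (x 3 0 * x 5 1 - x 3 1 * x 5 0) +
        (x 5 0 * x 5 1 - x 5 1 * x 6 0)) := by
    have : ε * p212 y = ε * dt (y 1 - y 0) (y 4 - y 3) (y 2 - y 0) (y 3 - y 0) +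
        ε * dt (y 1 - y 0) (y 4 - y 3) (y 3 - y 0) (y 5 - y 0) +
        ε * dt (y 1 - y 0) (y 4 - y 3) (y 5 - y 0) (y 6 - y 0) := by
      unfold p212
      ring
    rw [this, hB, hB, hB, ← hx 2, ← hx 3, ← hx 5, ← hx 6, g2]
    ring
  have hab : |p212 y| = |ε * p212 y| := by
    rcases hε with rfl | rfl
    · rw [one_mul]
    · rw [neg_one_mul, abs_neg]
  rw [hab, hP, abs_mul]
  -- the two lengths
  obtain ⟨a2, ha2⟩ : ∃ a, a = x 1 2 := ⟨_, rfl⟩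
  obtain ⟨a3, ha3⟩ : ∃ a, a = x 1 3 := ⟨_, rfl⟩
  obtain ⟨c2, hc2⟩ : ∃ c, c = x 4 2 - x 3 2 := ⟨_, rfl⟩
  obtain ⟨c3, hc3⟩ : ∃ c, c = x 4 3 - x 3 3 := ⟨_, rfl⟩
  have e42 : x 4 2 = x 3 2 + c2 := by rw [hc2]; ring
  have e43 : x 4 3 = x 3 3 + c3 := by rw [hc3]; ring
  have hl1 : (√(a2 ^ 2 + a3 ^ 2)) ^ 2 = a2 ^ 2 + a3 ^ 2 := Real.sq_sqrt (by positivity)
  have hl2 : (√(c2 ^ 2 + c3 ^ 2)) ^ 2 = c2 ^ 2 + c3 ^ 2 := Real.sq_sqrt (by positivity)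
  have hc10 := hco 1 0
  rw [hx0, hx0, hx0, hx0, k0, k1, ← ha2, ← ha3] at hc10
  have hc43 := hco 4 3
  rw [g0, g1, ← hc2, ← hc3] at hc43
  have hl1' : √(a2 ^ 2 + a3 ^ 2) ≤ 1 := by
    rw [Real.sqrt_le_one]
    linarith
  have hl2' : √(c2 ^ 2 + c3 ^ 2) ≤ 1 := by
    rw [Real.sqrt_le_one]
    linarith
  have hdel : |a2 * c3 - a3 * c2| ≤ √(a2 ^ 2 + a3 ^ 2) * √(c2 ^ 2 + c3 ^ 2) := by
    rw [← Real.sqrt_mul (by positivity)]
    apply Real.abs_le_sqrt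
    have h0 := sq_nonneg (a2 * c2 + a3 * c3)
    have h1 : (a2 ^ 2 + a3 ^ 2) * (c2 ^ 2 + c3 ^ 2) - (a2 * c3 - a3 * c2) ^ 2 =
        (a2 * c2 + a3 * c3) ^ 2 := by ring
    rw [← h1] at h0
    exact sub_nonneg.1 h0
  -- distances from the first segment
  have hA : ∀ k, x k 0 ^ 2 + x k 1 ^ 2 ≤ 1 - (√(a2 ^ 2 + a3 ^ 2)) ^ 2 / 4 := by
    intro k
    have h1 := hco k 0
    have h2 := hco k 1
    rw [hx0, hx0, hx0, hx0] at h1
    rw [k0, k1, ← ha2, ← ha3] at h2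
    have := par (x0 := x k 0) (x1 := x k 1) (x2 := x k 2) (x3 := x k 3) (p0 := 0) (p1 := 0)
      (p2 := 0) (p3 := 0) hl1 h1 (by simpa using h2)
    simpa using this
  -- distances from the second segment
  have hC : ∀ k, (x k 0 - x 3 0) ^ 2 + (x k 1 - x 3 1) ^ 2 ≤
      1 - (√(c2 ^ 2 + c3 ^ 2)) ^ 2 / 4 := by
    intro k
    have h1 := hco k 3
    have h2 := hco k 4
    rw [g0, g1, e42, e43] at h2
    exact par hl2 h1 h2
  -- distance of the two segments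
  have hb : x 3 0 ^ 2 + x 3 1 ^ 2 ≤
      1 - ((√(a2 ^ 2 + a3 ^ 2)) ^ 2 + (√(c2 ^ 2 + c3 ^ 2)) ^ 2) / 4 := by
    rw [hl1, hl2]
    have h1 := hco 3 0
    have h2 := hco 3 1
    have h3 := hco 4 0
    have h4 := hco 4 1
    rw [hx0, hx0, hx0, hx0] at h1 h3
    rw [k0, k1, ← ha2, ← ha3] at h2 h4
    rw [g0, g1, e42, e43] at h3 h4
    linarith [sq_nonneg (2 * x 3 2 + c2 - a2), sq_nonneg (2 * x 3 3 + c3 - a3)]
  have hpl : ∀ i j, (x i 0 - x j 0) ^ 2 + (x i 1 - x j 1) ^ 2 ≤ 1 := by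
    intro i j
    have := hco i j
    linarith [sq_nonneg (x i 2 - x j 2), sq_nonneg (x i 3 - x j 3)]
  have h56 : (x 6 0 - x 5 0) ^ 2 ≤ 1 := by
    have := hpl 6 5
    linarith [sq_nonneg (x 6 1 - x 5 1)]
  have hA6 := hA 6
  have hC6 := hC 6
  have hw := hpl 6 2
  rw [g2] at hA6 hC6 hw
  have key := h (√(a2 ^ 2 + a3 ^ 2)) (√(c2 ^ 2 + c3 ^ 2)) (x 3 0) (x 3 1) (x 2 0) (x 2 1)
    (x 5 0) (x 5 1) (x 6 0) (Real.sqrt_nonneg _) hl1' (Real.sqrt_nonneg _) hl2' g3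
    (hA 2) (hA 5) hA6 (hC 2) (hC 5) hC6 hb (hpl 5 2) hw h56
  refine le_trans ?_ key
  rw [← ha2, ← ha3, ← hc2, ← hc3]
  exact mul_le_mul_of_nonneg_right hdel (abs_nonneg _)

end Pool.Agent.Helper99.Vol4.PkP212
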